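import Pool.Agent.BD.CompileE

/-!
Compilation of the table language to the random access machine: loops, main theorem.
-/

set_option linter.unusedSectionVars false
set_option linter.unusedVariables false
set_option linter.unusedSimpArgs false

namespace Pool.Agent.BD

namespace Compile

/-! ### Loop bodies -/

/-- register 11 is clamped by register 6 -/
def clampCode : List Instr :=
  [.less 12 11 6, .mul 11 11 12, .sub 12 7 12, .mul 12 12 6, .add 11 11 12]

/-- register 10 becomes the address of cell `reg 10` of table `k` -/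
def addrCode (k : ℕ) : List Instr :=
  [.mul 10 10 5, .add 10 10 2, .const 12 k, .add 10 10 12]

/-- register 11 becomes the maximum of register 11 and the memory at `reg 10` -/
def maxCode : List Instr :=
  [.load 13 10, .less 12 13 11, .mul 11 11 12, .sub 12 7 12, .mul 13 13 12, .add 11 11 13]

/-- the multiplier of a loop -/
def mult : Loop → ℕ
  | .fill m _ => m
  | .scat m _ _ => m

/-- the current table after `s` iterations -/
def lrec (n : ℕ) (inp : ℕ → ℕ) (T : ℕ → ℕ → ℕ) : Loop → ℕ → (ℕ → ℕ)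
  | .fill _ v => fillRec n inp T v
  | .scat _ a v => scatRec n inp T a v

/-- the straight line part of a loop body -/
def body (k : ℕ) : Loop → List Instr
  | .fill _ v => [.move 10 3] ++ (ce k v 1 ++ (clampCode ++ addrCode k))
  | .scat _ a v => ce k a 0 ++ (ce k v 1 ++ (clampCode ++ (addrCode k ++ maxCode)))

/-- size exponent of a loop -/
def lsize : Loop → ℕ
  | .fill _ v => size v
  | .scat _ a v => size a + size v

theorem body_isReg (k : ℕ) (l : Loop) : ∀ i ∈ body k l, isReg i = true := by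
  have hc : ∀ i ∈ clampCode, isReg i = true := by
    intro i hi
    simp [clampCode] at hi
    rcases hi with rfl | rfl | rfl | rfl | rfl <;> rfl
  have ha : ∀ i ∈ addrCode k, isReg i = true := by
    intro i hi
    simp [addrCode] at hi
    rcases hi with rfl | rfl | rfl | rfl <;> rfl
  have hm : ∀ i ∈ maxCode, isReg i = true := by
    intro i hi
    simp [maxCode] at hi
    rcases hi with rfl | rfl | rfl | rfl | rfl | rfl <;> rfl
  cases l with
  | fill m v =>
    intro i hi
    simp only [body, List.mem_append] at hi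
    rcases hi with hi | hi | hi | hi
    · simp at hi; subst hi; rfl
    · exact ce_isReg k v 1 i hi
    · exact hc i hi
    · exact ha i hi
  | scat m a v =>
    intro i hi
    simp only [body, List.mem_append] at hi
    rcases hi with hi | hi | hi | hi | hi
    · exact ce_isReg k a 0 i hi
    · exact ce_isReg k v 1 i hi
    · exact hc i hi
    · exact ha i hi
    · exact hm i hi

theorem clamp_spec {n K G v x : ℕ} {m σ : ℕ → ℕ} (h : RegInv n K σ) (h10 : σ 10 = x)
    (h11 : σ 11 = v) (hv : v ≤ G) (hcap : cap n ≤ G) (h1 : 1 ≤ G) :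
    evs m clampCode σ 10 = x ∧ evs m clampCode σ 11 = min v (cap n) ∧
      (∀ r < 10, evs m clampCode σ r = σ r) ∧ Bd m G clampCode σ := by
  have h6 := h.r6
  have h7 := h.r7
  refine ⟨?_, ?_, ?_, ?_⟩
  · simp [clampCode, evs, dst, val, Function.update, h10]
  · simp [clampCode, evs, dst, val, Function.update, h10, h11, h6, h7]
    by_cases hc : v < cap n
    · simp [hc, hc.le]
    · simp [hc, not_lt.mp hc]
  · intro r hr
    have hr1 : r ≠ 11 := by omega
    have hr2 : r ≠ 12 := by omega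
    simp [clampCode, evs, dst, val, Function.update, hr1, hr2]
  · simp [clampCode, Bd, dst, val, Function.update, h11, h6, h7]
    by_cases hc : v < cap n
    · simp [hc]; omega
    · simp [hc]; omega

theorem addr_spec {n K X G k x v w : ℕ} {m σ : ℕ → ℕ} (hX : Big n K X) (h : RegInv n K σ)
    (hk : k < K) (h10 : σ 10 = x) (h11 : σ 11 = v) (hw : 1 ≤ w) (hx : x ≤ X ^ w)
    (hG : X ^ (w + 2) ≤ G) :
    evs m (addrCode k) σ 10 = x * K + (n * n + 1) + k ∧ evs m (addrCode k) σ 11 = v ∧
      (∀ r < 10, evs m (addrCode k) σ r = σ r) ∧ Bd m G (addrCode k) σ := by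
  have h5 := h.r5
  have h2 := h.r2
  obtain ⟨b1, b2, b3⟩ := addr_bound hX hk hw hx
  refine ⟨?_, ?_, ?_, ?_⟩
  · simp [addrCode, evs, dst, val, Function.update, h10, h5, h2]
  · simp [addrCode, evs, dst, val, Function.update, h11]
  · intro r hr
    have hr1 : r ≠ 10 := by omega
    have hr2 : r ≠ 12 := by omega
    simp [addrCode, evs, dst, val, Function.update, hr1, hr2]
  · simp [addrCode, Bd, dst, val, Function.update, h10, h5, h2]
    have hkX : k ≤ X := hk.le.trans hX.kk
    have hXG : X ≤ G := (le_pow_of_le hX.two (by omega) le_rfl).trans hG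
    refine ⟨by omega, by omega, by omega, by omega⟩

theorem max_spec {n K G y v c : ℕ} {m σ : ℕ → ℕ} (h : RegInv n K σ) (h10 : σ 10 = y)
    (h11 : σ 11 = v) (hc : m y = c) (hv : v ≤ G) (hcG : c ≤ G) (h1 : 1 ≤ G) :
    evs m maxCode σ 10 = y ∧ evs m maxCode σ 11 = max c v ∧
      (∀ r < 10, evs m maxCode σ r = σ r) ∧ Bd m G maxCode σ := by
  have h7 := h.r7
  refine ⟨?_, ?_, ?_, ?_⟩
  · simp [maxCode, evs, dst, val, Function.update, h10]
  · simp [maxCode, evs, dst, val, Function.update, h10, h11, h7, hc]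
    by_cases hcv : c < v
    · simp [hcv, hcv.le]
    · simp [hcv, not_lt.mp hcv]
  · intro r hr
    have hr1 : r ≠ 11 := by omega
    have hr2 : r ≠ 12 := by omega
    have hr3 : r ≠ 13 := by omega
    simp [maxCode, evs, dst, val, Function.update, hr1, hr2, hr3]
  · simp [maxCode, Bd, dst, val, Function.update, h10, h11, h7, hc]
    by_cases hcv : c < v
    · simp [hcv]; omega
    · simp [hcv]; omega

theorem body_spec {n : ℕ} {inp : ℕ → ℕ} {K X G k s : ℕ} {T : ℕ → ℕ → ℕ} {m ρ : ℕ → ℕ}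
    (hX : Big n K X) (hinp : ∀ x, inp x ≤ 1) (hs : s ≤ X) (hkK : k < K) (l : Loop)
    (hl : l.wf k = true)
    (hm : MemInv n inp K X (Function.update T k (lrec n inp T l s)) m)
    (hρ : RegInv n K ρ) (h3 : ρ 3 = s) (hG : X ^ (lsize l + 3) ≤ G) :
    ∃ x w, lrec n inp T l (s + 1) = Function.update (lrec n inp T l s) x w ∧ w ≤ X ∧
      evs m (body k l) ρ 10 = x * K + (n * n + 1) + k ∧ evs m (body k l) ρ 11 = w ∧
      (∀ r < 10, evs m (body k l) ρ r = ρ r) ∧ Bd m G (body k l) ρ := by
  have h2 := hX.two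
  have hXG : X ≤ G := (le_pow_of_le hX.two (by omega) le_rfl).trans hG
  have hTc : ∀ j < k, Function.update T k (lrec n inp T l s) j = T j := fun j hj =>
    Function.update_of_ne hj.ne _ _
  have hTk : Function.update T k (lrec n inp T l s) k = lrec n inp T l s :=
    Function.update_self _ _ _
  cases l with
  | fill M v =>
    simp only [lsize] at hG
    have hvw : v.wf k = true := hl
    set ρ1 := evs m [Instr.move 10 3] ρ with hρ1
    have r1 : ρ1 10 = s := by simp [hρ1, evs, dst, val, h3]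
    have r1' : ∀ r < 10, ρ1 r = ρ r := fun r hr => by
      simp [hρ1, evs, dst, val, Function.update_of_ne (show r ≠ 10 by omega)]
    have hρ1i := hρ.of_agree r1'
    obtain ⟨v1, v2, v3, v4⟩ := ce_spec (G := G) hX hinp hs hkK hTc hTk hm v hvw 1 ρ1 hρ1i
      (by rw [r1' 3 (by omega), h3]) ((pow_mono' h2 (by omega)).trans hG)
    set ρ2 := evs m (ce k v 1) ρ1 with hρ2
    have hρ2i := hρ1i.of_agree (ρ' := ρ2) (fun r hr => v3 r (by omega))
    have hvG := v1.trans ((pow_mono' h2 (show size v ≤ size v + 3 by omega)).trans hG)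
    obtain ⟨c1, c2, c3, c4⟩ := clamp_spec (G := G) (m := m) (x := s) hρ2i
      (by rw [v3 10 (by omega), r1]) v2 hvG (hX.cp.trans hXG) (by omega)
    set ρ3 := evs m clampCode ρ2 with hρ3
    have hρ3i := hρ2i.of_agree (ρ' := ρ3) c3
    have hs1 : s ≤ X ^ 1 := by rw [pow_one]; exact hs
    obtain ⟨a1, a2, a3, a4⟩ := addr_spec (G := G) (m := m) hX hρ3i hkK c1 c2 le_rfl hs1
      ((pow_mono' h2 (by omega)).trans hG)
    have hev : evs m (body k (.fill M v)) ρ = evs m (addrCode k) ρ3 := by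
      simp only [body]
      rw [evs_append, evs_append, evs_append]
    refine ⟨s, min (v.eval n inp T (lrec n inp T (.fill M v) s) s) (cap n), rfl, ?_, ?_, ?_,
      ?_, ?_⟩
    · exact (min_le_right _ _).trans hX.cp
    · rw [hev, a1]
    · rw [hev, a2]
    · intro r hr
      rw [hev, a3 r hr, c3 r hr, v3 r (by omega), r1' r hr]
    · simp only [body]
      rw [Bd_append, Bd_append, Bd_append]
      refine ⟨?_, v4, c4, a4⟩
      simp [Bd, val, h3]
      omega
  | scat M a v =>
    simp only [lsize] at hG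
    simp only [Loop.wf, Bool.and_eq_true] at hl
    have hpa := size_pos a
    have hpv := size_pos v
    obtain ⟨x1, x2, x3, x4⟩ := ce_spec (G := G) hX hinp hs hkK hTc hTk hm a hl.1.1.1 0 ρ hρ
      h3 ((pow_mono' h2 (by omega)).trans hG)
    set ρ1 := evs m (ce k a 0) ρ with hρ1
    have hρ1i := hρ.of_agree (ρ' := ρ1) (fun r hr => x3 r (by omega))
    obtain ⟨v1, v2, v3, v4⟩ := ce_spec (G := G) hX hinp hs hkK hTc hTk hm v hl.1.1.2 1 ρ1
      hρ1i (by rw [x3 3 (by omega), h3]) ((pow_mono' h2 (by omega)).trans hG)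
    set ρ2 := evs m (ce k v 1) ρ1 with hρ2
    have hρ2i := hρ1i.of_agree (ρ' := ρ2) (fun r hr => v3 r (by omega))
    have hvG := v1.trans ((pow_mono' h2 (show size v ≤ size a + size v + 3 by omega)).trans hG)
    obtain ⟨c1, c2, c3, c4⟩ := clamp_spec (G := G) (m := m)
      (x := a.eval n inp T (lrec n inp T (.scat M a v) s) s) hρ2i
      (by rw [v3 10 (by omega)]; exact x2) v2 hvG (hX.cp.trans hXG) (by omega)
    set ρ3 := evs m clampCode ρ2 with hρ3
    have hρ3i := hρ2i.of_agree (ρ' := ρ3) c3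
    obtain ⟨a1, a2, a3, a4⟩ := addr_spec (G := G) (m := m) hX hρ3i hkK c1 c2 hpa x1
      ((pow_mono' h2 (by omega)).trans hG)
    set ρ4 := evs m (addrCode k) ρ3 with hρ4
    have hρ4i := hρ3i.of_agree (ρ' := ρ4) a3
    have hmem := hm.tab_eq k hkK (a.eval n inp T (lrec n inp T (.scat M a v) s) s)
    rw [hTk] at hmem
    have hcX : lrec n inp T (.scat M a v) s
        (a.eval n inp T (lrec n inp T (.scat M a v) s) s) ≤ X := by
      rw [← hmem]; exact hm.le _
    obtain ⟨m1, m2, m3, m4⟩ := max_spec (G := G) (m := m) hρ4i a1 a2 hmem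
      ((min_le_right _ _).trans (hX.cp.trans hXG)) (hcX.trans hXG) (by omega)
    have hev : evs m (body k (.scat M a v)) ρ = evs m maxCode ρ4 := by
      simp only [body]
      rw [evs_append, evs_append, evs_append, evs_append]
    refine ⟨a.eval n inp T (lrec n inp T (.scat M a v) s) s,
      max (lrec n inp T (.scat M a v) s (a.eval n inp T (lrec n inp T (.scat M a v) s) s))
        (min (v.eval n inp T (lrec n inp T (.scat M a v) s) s) (cap n)), rfl, ?_, ?_, ?_,
      ?_, ?_⟩
    · exact max_le hcX ((min_le_right _ _).trans hX.cp)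
    · rw [hev, m1]
    · rw [hev, m2]
    · intro r hr
      rw [hev, m3 r hr, a3 r hr, c3 r hr, v3 r (by omega), x3 r (by omega)]
    · simp only [body]
      rw [Bd_append, Bd_append, Bd_append, Bd_append]
      exact ⟨x4, v4, c4, a4, m4⟩

/-! ### Writing to a table -/

theorem addr_inj {K c x x' j j' : ℕ} (hj : j < K) (hj' : j' < K)
    (h : x * K + c + j = x' * K + c + j') : x = x' ∧ j = j' := by
  have h1 : j + K * x = j' + K * x' := by nlinarith
  have hK : 0 < K := by omega
  have h2 : j = j' := by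
    have := congrArg (· % K) h1
    simpa [Nat.add_mul_mod_self_left, Nat.mod_eq_of_lt hj, Nat.mod_eq_of_lt hj'] using this
  subst h2
  refine ⟨?_, rfl⟩
  have h3 : K * x = K * x' := by omega
  exact Nat.eq_of_mul_eq_mul_left hK h3

theorem MemInv.write {n : ℕ} {inp : ℕ → ℕ} {K X k x w : ℕ} {T : ℕ → ℕ → ℕ} {C C' : ℕ → ℕ}
    {m : ℕ → ℕ} (hk : k < K) (hm : MemInv n inp K X (Function.update T k C) m) (hw : w ≤ X)
    (hC : C' = Function.update C x w) :
    MemInv n inp K X (Function.update T k C')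
      (Function.update m (x * K + (n * n + 1) + k) w) := by
  refine ⟨?_, ?_, ?_⟩
  · intro e he
    rw [Function.update_of_ne (by
      have : 0 ≤ x * K := Nat.zero_le _
      omega)]
    exact hm.inp_eq e he
  · intro j hj y
    by_cases h : y * K + (n * n + 1) + j = x * K + (n * n + 1) + k
    · obtain ⟨h1, h2⟩ := addr_inj hj hk h
      subst h1; subst h2
      rw [Function.update_self, Function.update_self, hC, Function.update_self]
    · rw [Function.update_of_ne h, hm.tab_eq j hj y]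
      by_cases hjk : j = k
      · subst hjk
        have hxy : y ≠ x := fun hc => h (by rw [hc])
        rw [Function.update_self, Function.update_self, hC, Function.update_of_ne hxy]
      · rw [Function.update_of_ne hjk, Function.update_of_ne hjk]
  · exact update_le hm.le hw

/-! ### Loops -/

/-- code of a loop at position `p` -/
def lc (k p : ℕ) (l : Loop) : List Instr :=
  [.const 3 0, .const 4 (mult l), .mul 4 4 1, .mul 4 4 1] ++ ([.less 10 3 4,
    .jumpz 10 (p + ((body k l).length + 9))] ++ (body k l ++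
      [.store 10 11, .add 3 3 7, .jump (p + 4)]))

theorem lc_length (k p : ℕ) (l : Loop) : (lc k p l).length = (body k l).length + 9 := by
  simp [lc]

theorem iter_spec {n : ℕ} {inp : ℕ → ℕ} {K X G k p N : ℕ} {T : ℕ → ℕ → ℕ} {Q : List Instr}
    (hX : Big n K X) (hinp : ∀ x, inp x ≤ 1) (hkK : k < K) (l : Loop) (hl : l.wf k = true)
    (hNX : N ≤ X) (hG : X ^ (lsize l + 3) ≤ G) (hQ : Seg Q p (lc k p l)) :
    ∀ j s (ρ m : ℕ → ℕ), s + j = N → RegInv n K ρ → ρ 3 = s → ρ 4 = N → (∀ i, ρ i ≤ G) →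
      MemInv n inp K X (Function.update T k (lrec n inp T l s)) m →
      ∃ ρ' m' : ℕ → ℕ, RegInv n K ρ' ∧ (∀ i, ρ' i ≤ G) ∧
        MemInv n inp K X (Function.update T k (lrec n inp T l N)) m' ∧
        Reach Q G ⟨p + 4, ρ, m⟩ (j * ((body k l).length + 5) + 2)
          ⟨p + ((body k l).length + 9), ρ', m'⟩ := by
  have h2 := hX.two
  have hXG : X ≤ G := (le_pow_of_le hX.two (by omega) le_rfl).trans hG
  unfold lc at hQ
  rw [Seg_append, Seg_append, Seg_append] at hQ
  obtain ⟨q1, q2, q3, q4⟩ := hQ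
  simp only [List.length_cons, List.length_nil] at q2 q3 q4
  obtain ⟨q21, q22, -⟩ := q2
  obtain ⟨q41, q42, q43, -⟩ := q4
  intro j
  induction j with
  | zero =>
    intro s ρ m hsj hρ h3 h4 hρG hm
    have hsN : s = N := by omega
    subst hsN
    have s1 : step Q ⟨p + 4, ρ, m⟩ = ⟨p + 5, Function.update ρ 10 0, m⟩ := by
      have := step_reg (Q := Q) (p := p + 4) (ρ := ρ) (m := m) (i := .less 10 3 4) rfl q21
      rw [this]
      simp [dst, val, h3, h4]
    have s2 : step Q ⟨p + 5, Function.update ρ 10 0, m⟩ =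
        ⟨p + ((body k l).length + 9), Function.update ρ 10 0, m⟩ := by
      have hq : Q[p + 5]? = some (.jumpz 10 (p + ((body k l).length + 9))) := q22
      simp [step, hq]
    have hb : Bdc G ⟨p + 4, ρ, m⟩ := ⟨hρG, fun i => (hm.le i).trans hXG⟩
    have hb' : ∀ i, Function.update ρ 10 0 i ≤ G := update_le hρG (by omega)
    refine ⟨Function.update ρ 10 0, m, ?_, hb', hm, ?_⟩
    · exact hρ.of_agree (fun r hr => Function.update_of_ne (by omega) _ _)
    · have r1 := Reach.one hb (s' := ⟨p + 5, Function.update ρ 10 0, m⟩) ⟨hb', hb.2⟩ s1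
      have r2 := Reach.one (s := ⟨p + 5, Function.update ρ 10 0, m⟩) ⟨hb', hb.2⟩
        (s' := ⟨p + ((body k l).length + 9), Function.update ρ 10 0, m⟩) ⟨hb', hb.2⟩ s2
      have := r1.trans r2
      simpa using this
  | succ j ih =>
    intro s ρ m hsj hρ h3 h4 hρG hm
    have hmG : ∀ i, m i ≤ G := fun i => (hm.le i).trans hXG
    -- less
    have s1 : step Q ⟨p + 4, ρ, m⟩ = ⟨p + 5, Function.update ρ 10 1, m⟩ := by
      have := step_reg (Q := Q) (p := p + 4) (ρ := ρ) (m := m) (i := .less 10 3 4) rfl q21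
      rw [this]
      have hlt : s < N := by omega
      simp [dst, val, h3, h4, hlt]
    have s2 : step Q ⟨p + 5, Function.update ρ 10 1, m⟩ =
        ⟨p + 6, Function.update ρ 10 1, m⟩ := by
      have hq : Q[p + 5]? = some (.jumpz 10 (p + ((body k l).length + 9))) := q22
      simp [step, hq]
    set ρ1 := Function.update ρ 10 1 with hρ1
    have hb1 : ∀ i, ρ1 i ≤ G := update_le hρG (by omega)
    have ag1 : ∀ r < 10, ρ1 r = ρ r := fun r hr => Function.update_of_ne (by omega) _ _
    have hρ1i := hρ.of_agree ag1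
    obtain ⟨x, w, w1, w2, w3, w4, w5, w6⟩ := body_spec (G := G) hX hinp (s := s) (by omega)
      hkK l hl hm hρ1i (by rw [ag1 3 (by omega), h3]) hG
    have r3 := run_straight (Q := Q) (p := p + 6) (body_isReg k l) q3 w6 hb1 hmG
    set ρ2 := evs m (body k l) ρ1 with hρ2
    have hb2 : ∀ i, ρ2 i ≤ G := evs_le hb1 w6
    set m' := Function.update m (x * K + (n * n + 1) + k) w with hm'
    have hmi : MemInv n inp K X (Function.update T k (lrec n inp T l (s + 1))) m' :=
      MemInv.write hkK hm w2 w1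
    have hmG' : ∀ i, m' i ≤ G := fun i => (hmi.le i).trans hXG
    have q41' : Q[p + 6 + (body k l).length]? = some (.store 10 11) := q41
    have q42' : Q[p + 6 + (body k l).length + 1]? = some (.add 3 3 7) := q42
    have q43' : Q[p + 6 + (body k l).length + 1 + 1]? = some (.jump (p + 4)) := q43
    have s4 : step Q ⟨p + 6 + (body k l).length, ρ2, m⟩ =
        ⟨p + 6 + (body k l).length + 1, ρ2, m'⟩ := by
      simp [step, q41', w3, w4, hm']
    have hρ2i := hρ1i.of_agree w5
    have e3 : ρ2 3 = s := by rw [w5 3 (by omega), ag1 3 (by omega), h3]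
    set ρ3 := Function.update ρ2 3 (s + 1) with hρ3
    have s5 : step Q ⟨p + 6 + (body k l).length + 1, ρ2, m'⟩ =
        ⟨p + 6 + (body k l).length + 1 + 1, ρ3, m'⟩ := by
      rw [step_reg (i := .add 3 3 7) rfl q42']
      simp only [dst, val, e3, hρ2i.r7, hρ3]
    have hb3 : ∀ i, ρ3 i ≤ G := update_le hb2 (by omega)
    have s6 : step Q ⟨p + 6 + (body k l).length + 1 + 1, ρ3, m'⟩ = ⟨p + 4, ρ3, m'⟩ := by
      simp [step, q43']
    have hρ3i : RegInv n K ρ3 := by
      obtain ⟨h0, h1, h2, h5, h6, h7, h9⟩ := hρ2i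
      refine ⟨?_, ?_, ?_, ?_, ?_, ?_, ?_⟩ <;>
        rw [hρ3, Function.update_of_ne (by omega)] <;> assumption
    obtain ⟨ρ', m'', f1, f2, f3, f4⟩ := ih (s + 1) ρ3 m' (by omega) hρ3i
      (by rw [hρ3, Function.update_self])
      (by rw [hρ3, Function.update_of_ne (by omega), w5 4 (by omega), ag1 4 (by omega), h4])
      hb3 hmi
    refine ⟨ρ', m'', f1, f2, f3, ?_⟩
    have t1 := Reach.one (s := ⟨p + 4, ρ, m⟩) ⟨hρG, hmG⟩ (s' := ⟨p + 5, ρ1, m⟩) ⟨hb1, hmG⟩ s1
    have t2 := Reach.one (s := ⟨p + 5, ρ1, m⟩) ⟨hb1, hmG⟩ (s' := ⟨p + 6, ρ1, m⟩) ⟨hb1, hmG⟩ s2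
    have t4 := Reach.one (s := ⟨p + 6 + (body k l).length, ρ2, m⟩) ⟨hb2, hmG⟩
      (s' := ⟨p + 6 + (body k l).length + 1, ρ2, m'⟩) ⟨hb2, hmG'⟩ s4
    have t5 := Reach.one (s := ⟨p + 6 + (body k l).length + 1, ρ2, m'⟩) ⟨hb2, hmG'⟩
      (s' := ⟨p + 6 + (body k l).length + 1 + 1, ρ3, m'⟩) ⟨hb3, hmG'⟩ s5
    have t6 := Reach.one (s := ⟨p + 6 + (body k l).length + 1 + 1, ρ3, m'⟩) ⟨hb3, hmG'⟩
      (s' := ⟨p + 4, ρ3, m'⟩) ⟨hb3, hmG'⟩ s6
    have tt := t1.trans (t2.trans (r3.trans (t4.trans (t5.trans (t6.trans f4)))))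
    have hN : 1 + (1 + ((body k l).length + (1 + (1 + (1 + (j * ((body k l).length + 5) + 2))))))
        = (j + 1) * ((body k l).length + 5) + 2 := by ring
    rw [hN] at tt
    exact tt

theorem lrec_zero (n : ℕ) (inp : ℕ → ℕ) (T : ℕ → ℕ → ℕ) (l : Loop) :
    lrec n inp T l 0 = fun _ => 0 := by
  cases l <;> rfl

theorem lrec_table (n : ℕ) (inp : ℕ → ℕ) (T : ℕ → ℕ → ℕ) (l : Loop) :
    lrec n inp T l (mult l * (n + 1) ^ 2) = l.table n inp T := by
  cases l <;> rfl

theorem loop_spec {n : ℕ} {inp : ℕ → ℕ} {K X G k p : ℕ} {T : ℕ → ℕ → ℕ} {Q : List Instr}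
    (hX : Big n K X) (hinp : ∀ x, inp x ≤ 1) (hkK : k < K) (l : Loop) (hl : l.wf k = true)
    (hNX : mult l * (n + 1) ^ 2 ≤ X) (hG : X ^ (lsize l + 3) ≤ G) (hQ : Seg Q p (lc k p l))
    (hT : T k = fun _ => 0) {ρ m : ℕ → ℕ} (hρ : RegInv n K ρ) (hρG : ∀ i, ρ i ≤ G)
    (hm : MemInv n inp K X T m) :
    ∃ ρ' m' : ℕ → ℕ, RegInv n K ρ' ∧ (∀ i, ρ' i ≤ G) ∧
        MemInv n inp K X (Function.update T k (l.table n inp T)) m' ∧
        Reach Q G ⟨p, ρ, m⟩ (mult l * (n + 1) ^ 2 * ((body k l).length + 5) + 6)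
          ⟨p + ((body k l).length + 9), ρ', m'⟩ := by
  have h2 := hX.two
  have hXG : X ≤ G := (le_pow_of_le hX.two (by omega) le_rfl).trans hG
  have hmG : ∀ i, m i ≤ G := fun i => (hm.le i).trans hXG
  have hit := iter_spec (T := T) hX hinp hkK l hl hNX hG hQ
  unfold lc at hQ
  rw [Seg_append] at hQ
  obtain ⟨q1, -⟩ := hQ
  set L : List Instr := [.const 3 0, .const 4 (mult l), .mul 4 4 1, .mul 4 4 1] with hL
  have hLr : ∀ i ∈ L, isReg i = true := by
    intro i hi
    simp [hL] at hi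
    rcases hi with rfl | rfl | rfl <;> rfl
  have hr1 := hρ.r1
  have hN2 : mult l * (n + 1) * (n + 1) = mult l * (n + 1) ^ 2 := by ring
  have hb : Bd m G L ρ := by
    simp [hL, Bd, dst, val, Function.update, hr1]
    have h5 : mult l ≤ mult l * (n + 1) := Nat.le_mul_of_pos_right _ (by omega)
    have h6 : mult l * (n + 1) ≤ mult l * (n + 1) * (n + 1) :=
      Nat.le_mul_of_pos_right _ (by omega)
    rw [← hN2] at hNX
    refine ⟨by omega, by omega, by omega⟩
  have r1 := run_straight (Q := Q) (p := p) hLr q1 hb hρG hmG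
  set ρ1 := evs m L ρ with hρ1
  have e3 : ρ1 3 = 0 := by simp [hρ1, hL, evs, dst, val, Function.update]
  have e4 : ρ1 4 = mult l * (n + 1) ^ 2 := by
    simp [hρ1, hL, evs, dst, val, Function.update, hr1]
    ring
  have ag : ∀ r, r ≠ 3 → r ≠ 4 → ρ1 r = ρ r := by
    intro r h3 h4
    simp [hρ1, hL, evs, dst, val, Function.update, h3, h4]
  have hρ1i : RegInv n K ρ1 := by
    obtain ⟨h0, h1, h2, h5, h6, h7, h9⟩ := hρ
    refine ⟨?_, ?_, ?_, ?_, ?_, ?_, ?_⟩ <;> rw [ag _ (by omega) (by omega)] <;> assumption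
  have hb1 : ∀ i, ρ1 i ≤ G := evs_le hρG hb
  have hm0 : MemInv n inp K X (Function.update T k (lrec n inp T l 0)) m := by
    rw [lrec_zero, ← hT, Function.update_eq_self]
    exact hm
  obtain ⟨ρ', m', f1, f2, f3, f4⟩ := hit (mult l * (n + 1) ^ 2) 0 ρ1 m (by omega) hρ1i e3 e4
    hb1 hm0
  rw [lrec_table] at f3
  refine ⟨ρ', m', f1, f2, f3, ?_⟩
  have h4 : p + L.length = p + 4 := by simp [hL]
  rw [h4] at r1
  have := r1.trans f4
  have h5 : L.length + (mult l * (n + 1) ^ 2 * ((body k l).length + 5) + 2) =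
      mult l * (n + 1) ^ 2 * ((body k l).length + 5) + 6 := by
    simp [hL]; omega
  rw [h5] at this
  exact this

/-! ### Programs -/

/-- code of a list of loops, the first one is number `k` at position `p` -/
def lcs : ℕ → ℕ → List Loop → List Instr
  | _, _, [] => []
  | k, p, l :: ls => lc k p l ++ lcs (k + 1) (p + ((body k l).length + 9)) ls

/-- time constant -/
def tcs : ℕ → List Loop → ℕ
  | _, [] => 0
  | k, l :: ls => mult l * ((body k l).length + 5) + 6 + tcs (k + 1) ls

theorem lcs_spec {n : ℕ} {inp : ℕ → ℕ} {K X G : ℕ} {Q : List Instr}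
    (hX : Big n K X) (hinp : ∀ x, inp x ≤ 1) (hXG : X ≤ G) (ls : List Loop) :
    ∀ (k p : ℕ) (T : ℕ → ℕ → ℕ) (ρ m : ℕ → ℕ), wfFrom k ls = true →
      (∀ l ∈ ls, mult l * (n + 1) ^ 2 ≤ X) → (∀ l ∈ ls, X ^ (lsize l + 3) ≤ G) →
      k + ls.length < K → (∀ j, k ≤ j → T j = fun _ => 0) → Seg Q p (lcs k p ls) →
      RegInv n K ρ → (∀ i, ρ i ≤ G) → MemInv n inp K X T m →
      ∃ (t : ℕ) (ρ' m' : ℕ → ℕ), t ≤ tcs k ls * (n + 1) ^ 2 ∧ RegInv n K ρ' ∧
        (∀ i, ρ' i ≤ G) ∧ MemInv n inp K X (execFrom n inp k T ls) m' ∧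
        (∀ j, k + ls.length ≤ j → execFrom n inp k T ls j = fun _ => 0) ∧
        Reach Q G ⟨p, ρ, m⟩ t ⟨p + (lcs k p ls).length, ρ', m'⟩ := by
  induction ls with
  | nil =>
    intro k p T ρ m hwf h1 h2 hK hT hQ hρ hρG hm
    refine ⟨0, ρ, m, Nat.zero_le _, hρ, hρG, hm, ?_, ?_⟩
    · intro j hj
      exact hT j (by simpa using hj)
    · exact Reach.zero ⟨hρG, fun i => (hm.le i).trans hXG⟩
  | cons l ls ih =>
    intro k p T ρ m hwf h1 h2 hK hT hQ hρ hρG hm
    simp only [wfFrom, Bool.and_eq_true] at hwf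
    simp only [List.length_cons] at hK
    simp only [lcs] at hQ
    rw [Seg_append, lc_length] at hQ
    obtain ⟨ρ1, m1, a1, a2, a3, a4⟩ := loop_spec hX hinp (by omega) l hwf.1
      (h1 l (by simp)) (h2 l (by simp)) hQ.1 (hT k le_rfl) hρ hρG hm
    obtain ⟨t, ρ', m', b0, b1, b2, b3, b4, b5⟩ := ih (k + 1) (p + ((body k l).length + 9))
      (Function.update T k (l.table n inp T)) ρ1 m1 hwf.2
      (fun l' hl' => h1 l' (by simp [hl'])) (fun l' hl' => h2 l' (by simp [hl'])) (by omega)
      (fun j hj => by rw [Function.update_of_ne (by omega)]; exact hT j (by omega))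
      hQ.2 a1 a2 a3
    refine ⟨mult l * (n + 1) ^ 2 * ((body k l).length + 5) + 6 + t, ρ', m', ?_, b1, b2, b3,
      ?_, ?_⟩
    · simp only [tcs]
      have hn : 1 ≤ (n + 1) ^ 2 := Nat.one_le_pow _ _ (by omega)
      calc mult l * (n + 1) ^ 2 * ((body k l).length + 5) + 6 + t
          ≤ mult l * (n + 1) ^ 2 * ((body k l).length + 5) + 6 * (n + 1) ^ 2
            + tcs (k + 1) ls * (n + 1) ^ 2 := by
            have : 6 ≤ 6 * (n + 1) ^ 2 := Nat.le_mul_of_pos_right _ (by omega)
            omega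
        _ = (mult l * ((body k l).length + 5) + 6 + tcs (k + 1) ls) * (n + 1) ^ 2 := by ring
    · intro j hj
      simp only [execFrom]
      exact b4 j (by simp only [List.length_cons] at hj; omega)
    · have := a4.trans b5
      simp only [lcs, List.length_append, lc_length]
      rw [← Nat.add_assoc]
      exact this

/-- code before the loops -/
def prologue (K : ℕ) : List Instr :=
  [.load 0 9, .const 7 1, .add 1 0 7, .mul 2 0 0, .add 2 2 7, .const 5 K, .const 6 8,
    .mul 6 6 1]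

/-- the compiled program -/
def prog (P : List Loop) (out : Expr) : List Instr :=
  prologue (P.length + 1) ++ (lcs 0 8 P ++ (([.const 3 0] ++ (ce P.length out 0 ++
    [.move 0 10])) ++ [.halt]))

theorem pow_bound {n c : ℕ} : c ≤ (n + 2) ^ c := by
  have h1 : c < 2 ^ c := Nat.lt_two_pow_self
  have h3 : 2 ^ c ≤ (n + 2) ^ c := Nat.pow_le_pow_left (by omega) c
  omega

theorem HaltsWith.of_reach {Q : List Instr} {s s' : Conf} {t B B' o : ℕ}
    (h : Reach Q B s t s') (hh : Q[s'.pc]? = some .halt) (ho : s'.reg 0 = o) (hB : B ≤ B') :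
    HaltsWith Q s t o B' := by
  refine ⟨by rw [h.1]; exact hh, by rw [h.1]; exact ho, fun t' ht' => ?_⟩
  exact ⟨fun i => ((h.2 t' ht').1 i).trans hB, fun i => ((h.2 t' ht').2 i).trans hB⟩

end Compile

open Compile in
/-- every well formed table program is carried out by a RAM program in `O((n+1)^2)` steps with
numbers bounded by a fixed power of `n + 2` -/
theorem ram_main (P : List Loop) (out : Expr) (hP : wfFrom 0 P = true)
    (ho : out.wf P.length = true) (ho' : out.noCur = true) :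
    ∃ (Q : List Instr) (c : ℕ), ∀ (n : ℕ) (inp : ℕ → ℕ), (∀ x, inp x ≤ 1) →
      ∃ t, t ≤ c * (n + 1) ^ 2 ∧
        HaltsWith Q (initConf n inp) t
          (out.eval n inp (exec n inp P) (fun _ => 0) 0) ((n + 2) ^ c) := by
  set K := P.length + 1 with hK
  set c0 := K + 4 + (P.map mult).sum with hc0
  set W := (P.map lsize).sum + size out + 3 with hW
  set tm := 8 + tcs 0 P + (ce P.length out 0).length + 2 with htm
  refine ⟨prog P out, c0 * W + tm, fun n inp hinp => ?_⟩
  set X := (n + 2) ^ c0 with hX'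
  set G := X ^ W with hG'
  have hn2 : 2 ≤ n + 2 := by omega
  have hpw : ∀ e, e ≤ c0 → (n + 2) ^ e ≤ X := fun e he => pow_mono' hn2 he
  have hcap : cap n ≤ X := by
    refine le_trans ?_ (hpw 4 (by omega))
    unfold cap
    have h8 : 8 ≤ (n + 2) ^ 3 := by
      calc 8 = 2 ^ 3 := by norm_num
        _ ≤ (n + 2) ^ 3 := Nat.pow_le_pow_left hn2 3
    calc 8 * (n + 1) ≤ (n + 2) ^ 3 * (n + 2) := Nat.mul_le_mul h8 (by omega)
      _ = (n + 2) ^ 4 := by ring
  have hXb : Big n K X := by
    refine ⟨?_, ?_, ?_, ?_, hcap⟩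
    · refine le_trans ?_ (hpw 1 (by omega)); simp
    · refine le_trans ?_ (hpw 1 (by omega)); simp
    · refine le_trans ?_ (hpw 2 (by omega)); nlinarith
    · exact pow_bound.trans (hpw K (by omega))
  have h2 := hXb.two
  have hsum : ∀ (f : Loop → ℕ) (l : Loop), l ∈ P → f l ≤ (P.map f).sum := fun f l hl =>
    List.single_le_sum (fun _ _ => Nat.zero_le _) _ (List.mem_map_of_mem hl)
  have hmult : ∀ l ∈ P, mult l * (n + 1) ^ 2 ≤ X := by
    intro l hl
    have h5 := hsum mult l hl
    refine le_trans ?_ (hpw (mult l + 2) (by omega))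
    rw [pow_add]
    exact Nat.mul_le_mul pow_bound (Nat.pow_le_pow_left (by omega) 2)
  have hls : ∀ l ∈ P, X ^ (lsize l + 3) ≤ G := by
    intro l hl
    have h5 := hsum lsize l hl
    exact pow_mono' h2 (by omega)
  have hXG : X ≤ G := le_pow_of_le h2 (by omega) le_rfl
  have hout : X ^ size out ≤ G := pow_mono' h2 (by omega)
  -- segments
  have hseg := Seg_self (prog P out)
  unfold prog at hseg
  rw [Seg_append, Seg_append, Seg_append] at hseg
  obtain ⟨g1, g2, g3, g4⟩ := hseg
  have hplen : (prologue K).length = 8 := rfl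
  simp only [← hK, hplen, Nat.zero_add] at g2 g3 g4
  obtain ⟨g4, -⟩ := g4
  change Seg (prog P out) _ _ at g1
  change Seg (prog P out) _ _ at g2
  change Seg (prog P out) _ _ at g3
  change (prog P out)[_]? = _ at g4
  -- prologue
  set m0 : ℕ → ℕ := fun x => if x = 0 then n else if x ≤ n * n then inp (x - 1) else 0 with hm0
  have hm0X : ∀ i, m0 i ≤ X := by
    intro i
    simp only [hm0]
    have := hXb.n1
    split_ifs
    · omega
    · exact (hinp _).trans (by omega)
    · omega
  have hmi : MemInv n inp K X (fun _ _ => 0) m0 := by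
    refine ⟨?_, ?_, hm0X⟩
    · intro e he
      simp only [hm0]
      rw [if_neg (by omega), if_pos (by omega)]
      simp
    · intro j hj x
      simp only [hm0]
      have h5 : 0 ≤ x * K := Nat.zero_le _
      rw [if_neg (by omega), if_neg (by omega)]
  have hpr : ∀ i ∈ prologue K, isReg i = true := by
    intro i hi
    simp [prologue] at hi
    rcases hi with rfl | rfl | rfl | rfl | rfl | rfl | rfl | rfl <;> rfl
  have hm00 : m0 0 = n := by simp [hm0]
  have hcap8 : 8 * (n + 1) ≤ X := hcap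
  have hn1 := hXb.n1
  have hnb := hXb.base
  have hKX := hXb.kk
  have hpb : Bd m0 G (prologue K) (fun _ => 0) := by
    simp [prologue, Bd, dst, val, Function.update, hm00]
    refine ⟨by omega, by omega, by omega, by omega, by omega, by omega, by omega, by omega⟩
  have r1 := run_straight (Q := prog P out) (p := 0) hpr g1 hpb (fun _ => Nat.zero_le _)
    (fun i => (hm0X i).trans hXG)
  set ρ1 := evs m0 (prologue K) (fun _ => 0) with hρ1
  have hρ1i : RegInv n K ρ1 := by
    refine ⟨?_, ?_, ?_, ?_, ?_, ?_, ?_⟩ <;>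
      simp [hρ1, prologue, evs, dst, val, Function.update, hm00, cap]
  have hρ1G : ∀ i, ρ1 i ≤ G := evs_le (fun _ => Nat.zero_le _) hpb
  rw [hplen, Nat.zero_add] at r1
  -- loops
  obtain ⟨t, ρ2, m2, b0, b1, b2, b3, b4, b5⟩ := lcs_spec (G := G) hXb hinp hXG P 0 8
    (fun _ _ => 0) ρ1 m0 hP hmult hls (by omega) (fun _ _ => rfl) g2 hρ1i hρ1G hmi
  have hex : execFrom n inp 0 (fun _ _ => 0) P = exec n inp P := rfl
  rw [hex] at b3 b4
  -- epilogue
  set L : List Instr := [.const 3 0] ++ (ce P.length out 0 ++ [.move 0 10]) with hL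
  have hLr : ∀ i ∈ L, isReg i = true := by
    intro i hi
    simp only [hL, List.mem_append] at hi
    rcases hi with hi | hi | hi
    · simp at hi; subst hi; rfl
    · exact ce_isReg _ _ _ i hi
    · simp at hi; subst hi; rfl
  set ρ3 := Function.update ρ2 3 0 with hρ3
  have hρ3i : RegInv n K ρ3 := by
    obtain ⟨h0, h1, h2, h5, h6, h7, h9⟩ := b1
    refine ⟨?_, ?_, ?_, ?_, ?_, ?_, ?_⟩ <;>
      rw [hρ3, Function.update_of_ne (by omega)] <;> assumption
  obtain ⟨c1, c2, c3, c4⟩ := ce_spec (G := G) (s := 0) (T := exec n inp P)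
    (C := fun _ => 0) hXb hinp (by omega) (show P.length < K by omega) (fun _ _ => rfl)
    (b4 P.length (by simp)) b3 out ho 0 ρ3 hρ3i (by rw [hρ3, Function.update_self]) hout
  have hLev : evs m2 L ρ2 0 = out.eval n inp (exec n inp P) (fun _ => 0) 0 := by
    rw [hL, evs_append, evs_append]
    have : evs m2 [Instr.const 3 0] ρ2 = ρ3 := rfl
    rw [this]
    simp only [evs, dst, val, Function.update_self]
    exact c2
  have hLb : Bd m2 G L ρ2 := by
    rw [hL, Bd_append, Bd_append]
    have : evs m2 [Instr.const 3 0] ρ2 = ρ3 := rfl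
    rw [this]
    refine ⟨by simp [Bd, val], c4, ?_⟩
    have c2' : evs m2 (ce P.length out 0) ρ3 10 =
      out.eval n inp (exec n inp P) (fun _ => 0) 0 := c2
    simp only [Bd, val, and_true, c2']
    exact c1.trans hout
  have r3 := run_straight (Q := prog P out) (p := 8 + (lcs 0 8 P).length) hLr g3 hLb b2
    (fun i => (b3.le i).trans hXG)
  have rr := r1.trans (b5.trans r3)
  refine ⟨_, ?_, HaltsWith.of_reach (o := out.eval n inp (exec n inp P) (fun _ => 0) 0) rr
    g4 hLev ?_⟩
  · have hn : 1 ≤ (n + 1) ^ 2 := Nat.one_le_pow _ _ (by omega)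
    have hLlen : L.length = (ce P.length out 0).length + 2 := by
      simp [hL]
    rw [hLlen]
    have h5 : 8 + (t + ((ce P.length out 0).length + 2)) ≤ tm * (n + 1) ^ 2 := by
      rw [htm]
      have h6 : (8 + (ce P.length out 0).length + 2) ≤
        (8 + (ce P.length out 0).length + 2) * (n + 1) ^ 2 :=
        Nat.le_mul_of_pos_right _ (by omega)
      nlinarith
    have h7 : tm * (n + 1) ^ 2 ≤ (c0 * W + tm) * (n + 1) ^ 2 :=
      Nat.mul_le_mul_right _ (by omega)
    exact h5.trans h7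
  · rw [hG', hX', ← pow_mul]
    exact pow_mono' hn2 (by omega)

end Pool.Agent.BD
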