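import Pool.Agent.BD.Dsl

/-!
Compilation of the table language to the random access machine: straight line code, expressions.
-/

set_option linter.unusedSectionVars false
set_option linter.unusedVariables false
set_option linter.unusedSimpArgs false

namespace Pool.Agent.BD

namespace Compile

/-! ### Straight line code -/

/-- destination register of a register instruction -/
def dst : Instr → ℕ
  | .const r _ => r
  | .move r _ => r
  | .add r _ _ => r
  | .sub r _ _ => r
  | .mul r _ _ => r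
  | .div r _ _ => r
  | .mod r _ _ => r
  | .less r _ _ => r
  | .load r _ => r
  | _ => 0

/-- value written by a register instruction -/
def val (m ρ : ℕ → ℕ) : Instr → ℕ
  | .const _ c => c
  | .move _ a => ρ a
  | .add _ a b => ρ a + ρ b
  | .sub _ a b => ρ a - ρ b
  | .mul _ a b => ρ a * ρ b
  | .div _ a b => ρ a / ρ b
  | .mod _ a b => ρ a % ρ b
  | .less _ a b => if ρ a < ρ b then 1 else 0
  | .load _ a => m (ρ a)
  | _ => 0

/-- instructions that only change one register -/
def isReg : Instr → Bool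
  | .store _ _ => false
  | .jump _ => false
  | .jumpz _ _ => false
  | .halt => false
  | _ => true

/-- registers after straight line code -/
def evs (m : ℕ → ℕ) : List Instr → (ℕ → ℕ) → (ℕ → ℕ)
  | [], ρ => ρ
  | i :: L, ρ => evs m L (Function.update ρ (dst i) (val m ρ i))

/-- all written values are at most `B` -/
def Bd (m : ℕ → ℕ) (B : ℕ) : List Instr → (ℕ → ℕ) → Prop
  | [], _ => True
  | i :: L, ρ => val m ρ i ≤ B ∧ Bd m B L (Function.update ρ (dst i) (val m ρ i))

theorem evs_append (m : ℕ → ℕ) (L M : List Instr) (ρ : ℕ → ℕ) :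
    evs m (L ++ M) ρ = evs m M (evs m L ρ) := by
  induction L generalizing ρ with
  | nil => rfl
  | cons i L ih => exact ih _

theorem Bd_append (m : ℕ → ℕ) (B : ℕ) (L M : List Instr) (ρ : ℕ → ℕ) :
    Bd m B (L ++ M) ρ ↔ Bd m B L ρ ∧ Bd m B M (evs m L ρ) := by
  induction L generalizing ρ with
  | nil => simp [Bd, evs]
  | cons i L ih => simp only [List.cons_append, Bd, evs, ih, and_assoc]

theorem update_le {ρ : ℕ → ℕ} {B r v : ℕ} (h : ∀ i, ρ i ≤ B) (hv : v ≤ B) :
    ∀ i, Function.update ρ r v i ≤ B := by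
  intro i
  by_cases hi : i = r
  · subst hi; simpa using hv
  · rw [Function.update_of_ne hi]; exact h i

theorem evs_le {m : ℕ → ℕ} {B : ℕ} {L : List Instr} {ρ : ℕ → ℕ} (h : ∀ i, ρ i ≤ B)
    (hb : Bd m B L ρ) : ∀ i, evs m L ρ i ≤ B := by
  induction L generalizing ρ with
  | nil => exact h
  | cons i L ih => exact ih (update_le h hb.1) hb.2

/-- the code `L` occurs in `Q` at position `p` -/
def Seg (Q : List Instr) : ℕ → List Instr → Prop
  | _, [] => True
  | p, i :: L => Q[p]? = some i ∧ Seg Q (p + 1) L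

theorem Seg_append (Q : List Instr) (p : ℕ) (L M : List Instr) :
    Seg Q p (L ++ M) ↔ Seg Q p L ∧ Seg Q (p + L.length) M := by
  induction L generalizing p with
  | nil => simp [Seg]
  | cons i L ih =>
    simp only [List.cons_append, Seg, ih, and_assoc, List.length_cons]
    rw [show p + 1 + L.length = p + (L.length + 1) by omega]

theorem Seg_self_aux (A L : List Instr) : Seg (A ++ L) A.length L := by
  induction L generalizing A with
  | nil => trivial
  | cons i L ih =>
    refine ⟨by simp, ?_⟩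
    have := ih (A ++ [i])
    simpa using this

theorem Seg_self (Q : List Instr) : Seg Q 0 Q := Seg_self_aux [] Q

/-! ### Bounded runs -/

/-- all numbers of a configuration are at most `B` -/
def Bdc (B : ℕ) (s : Conf) : Prop := (∀ i, s.reg i ≤ B) ∧ ∀ i, s.mem i ≤ B

/-- after `t` steps from `s` we are in `s'`, all numbers at most `B` -/
def Reach (Q : List Instr) (B : ℕ) (s : Conf) (t : ℕ) (s' : Conf) : Prop :=
  runFor Q s t = s' ∧ ∀ t' ≤ t, Bdc B (runFor Q s t')

theorem Reach.trans {Q : List Instr} {B : ℕ} {s s' s'' : Conf} {t u : ℕ}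
    (h1 : Reach Q B s t s') (h2 : Reach Q B s' u s'') : Reach Q B s (t + u) s'' := by
  have key : ∀ v, runFor Q s (t + v) = runFor Q s' v := by
    intro v
    rw [← h1.1]
    unfold runFor
    rw [Nat.add_comm, Function.iterate_add_apply]
  refine ⟨by rw [key, h2.1], fun t' ht' => ?_⟩
  by_cases h : t' ≤ t
  · exact h1.2 t' h
  · obtain ⟨v, rfl⟩ : ∃ v, t' = t + v := ⟨t' - t, by omega⟩
    rw [key]
    exact h2.2 v (by omega)

theorem Reach.zero {Q : List Instr} {B : ℕ} {s : Conf} (h : Bdc B s) : Reach Q B s 0 s :=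
  ⟨rfl, fun t' ht' => by
    obtain rfl : t' = 0 := by omega
    exact h⟩

theorem Reach.one {Q : List Instr} {B : ℕ} {s s' : Conf} (h : Bdc B s) (h' : Bdc B s')
    (hs : step Q s = s') : Reach Q B s 1 s' := by
  refine ⟨hs, fun t' ht' => ?_⟩
  rcases Nat.le_one_iff_eq_zero_or_eq_one.mp ht' with rfl | rfl
  · exact h
  · show Bdc B (step Q s)
    rw [hs]; exact h'

theorem step_reg {Q : List Instr} {i : Instr} {p : ℕ} {ρ m : ℕ → ℕ} (hi : isReg i = true)
    (h : Q[p]? = some i) : step Q ⟨p, ρ, m⟩ =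
      ⟨p + 1, Function.update ρ (dst i) (val m ρ i), m⟩ := by
  cases i <;> simp [isReg] at hi <;> simp [step, h, Conf.set, dst, val]

theorem run_straight {Q : List Instr} {B : ℕ} {L : List Instr} {p : ℕ} {ρ m : ℕ → ℕ}
    (hL : ∀ i ∈ L, isReg i = true) (hs : Seg Q p L) (hb : Bd m B L ρ) (hρ : ∀ i, ρ i ≤ B)
    (hm : ∀ i, m i ≤ B) : Reach Q B ⟨p, ρ, m⟩ L.length ⟨p + L.length, evs m L ρ, m⟩ := by
  induction L generalizing p ρ with
  | nil => exact Reach.zero ⟨hρ, hm⟩
  | cons i L ih =>
    have h1 : Reach Q B ⟨p, ρ, m⟩ 1 ⟨p + 1, Function.update ρ (dst i) (val m ρ i), m⟩ :=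
      Reach.one ⟨hρ, hm⟩ ⟨update_le hρ hb.1, hm⟩ (step_reg (hL i (by simp)) hs.1)
    have h2 := ih (p := p + 1) (fun j hj => hL j (by simp [hj])) hs.2 hb.2
      (update_le hρ hb.1)
    have h3 := h1.trans h2
    rw [show p + 1 + L.length = p + (i :: L).length by simp; omega,
      show 1 + L.length = (i :: L).length by simp; omega] at h3
    exact h3

/-! ### Expressions -/

/-- size bound exponent -/
def size : Expr → ℕ
  | .lit c => c + 1
  | .sz => 1
  | .ctr => 1
  | .inp e => size e + 1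
  | .tab _ e => size e + 3
  | .cur e => size e + 3
  | .add a b => size a + size b
  | .sub a b => size a + size b
  | .mul a b => size a + size b
  | .div a b => size a + size b
  | .mod a b => size a + size b
  | .lt a b => size a + size b
  | .ite c a b => size c + size a + size b

theorem size_pos (e : Expr) : 1 ≤ size e := by
  induction e <;> simp only [size] <;> omega

/-- straight line code for an expression; the value goes to register `t + 10` -/
def ce (k : ℕ) : Expr → ℕ → List Instr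
  | .lit c, t => [.const (t + 10) c]
  | .sz, t => [.move (t + 10) 0]
  | .ctr, t => [.move (t + 10) 3]
  | .inp e, t => ce k e t ++ [.mul (t + 11) 0 0, .less (t + 11) (t + 10) (t + 11),
      .add (t + 10) (t + 10) 7, .load (t + 10) (t + 10), .mul (t + 10) (t + 10) (t + 11)]
  | .tab j e, t => ce k e t ++ [.mul (t + 10) (t + 10) 5, .add (t + 10) (t + 10) 2,
      .const (t + 11) j, .add (t + 10) (t + 10) (t + 11), .load (t + 10) (t + 10)]
  | .cur e, t => ce k e t ++ [.mul (t + 10) (t + 10) 5, .add (t + 10) (t + 10) 2,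
      .const (t + 11) k, .add (t + 10) (t + 10) (t + 11), .load (t + 10) (t + 10)]
  | .add a b, t => ce k a t ++ (ce k b (t + 1) ++ [.add (t + 10) (t + 10) (t + 11)])
  | .sub a b, t => ce k a t ++ (ce k b (t + 1) ++ [.sub (t + 10) (t + 10) (t + 11)])
  | .mul a b, t => ce k a t ++ (ce k b (t + 1) ++ [.mul (t + 10) (t + 10) (t + 11)])
  | .div a b, t => ce k a t ++ (ce k b (t + 1) ++ [.div (t + 10) (t + 10) (t + 11)])
  | .mod a b, t => ce k a t ++ (ce k b (t + 1) ++ [.mod (t + 10) (t + 10) (t + 11)])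
  | .lt a b, t => ce k a t ++ (ce k b (t + 1) ++ [.less (t + 10) (t + 10) (t + 11)])
  | .ite c a b, t => ce k c t ++ (ce k a (t + 1) ++ (ce k b (t + 2) ++
      [.less (t + 10) 9 (t + 10), .mul (t + 11) (t + 11) (t + 10), .sub (t + 10) 7 (t + 10),
        .mul (t + 12) (t + 12) (t + 10), .add (t + 10) (t + 11) (t + 12)]))

theorem ce_isReg (k : ℕ) (e : Expr) : ∀ t, ∀ i ∈ ce k e t, isReg i = true := by
  induction e with
  | lit c => intro t i hi; simp [ce] at hi; subst hi; rfl
  | sz => intro t i hi; simp [ce] at hi; subst hi; rfl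
  | ctr => intro t i hi; simp [ce] at hi; subst hi; rfl
  | inp e ih =>
    intro t i hi
    simp only [ce, List.mem_append] at hi
    rcases hi with hi | hi
    · exact ih t i hi
    · simp at hi; rcases hi with rfl | rfl | rfl | rfl | rfl <;> rfl
  | tab j e ih =>
    intro t i hi
    simp only [ce, List.mem_append] at hi
    rcases hi with hi | hi
    · exact ih t i hi
    · simp at hi; rcases hi with rfl | rfl | rfl | rfl | rfl <;> rfl
  | cur e ih =>
    intro t i hi
    simp only [ce, List.mem_append] at hi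
    rcases hi with hi | hi
    · exact ih t i hi
    · simp at hi; rcases hi with rfl | rfl | rfl | rfl | rfl <;> rfl
  | add a b iha ihb =>
    intro t i hi
    simp only [ce, List.mem_append] at hi
    rcases hi with hi | hi | hi
    · exact iha t i hi
    · exact ihb _ i hi
    · simp at hi; subst hi; rfl
  | sub a b iha ihb =>
    intro t i hi
    simp only [ce, List.mem_append] at hi
    rcases hi with hi | hi | hi
    · exact iha t i hi
    · exact ihb _ i hi
    · simp at hi; subst hi; rfl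
  | mul a b iha ihb =>
    intro t i hi
    simp only [ce, List.mem_append] at hi
    rcases hi with hi | hi | hi
    · exact iha t i hi
    · exact ihb _ i hi
    · simp at hi; subst hi; rfl
  | div a b iha ihb =>
    intro t i hi
    simp only [ce, List.mem_append] at hi
    rcases hi with hi | hi | hi
    · exact iha t i hi
    · exact ihb _ i hi
    · simp at hi; subst hi; rfl
  | mod a b iha ihb =>
    intro t i hi
    simp only [ce, List.mem_append] at hi
    rcases hi with hi | hi | hi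
    · exact iha t i hi
    · exact ihb _ i hi
    · simp at hi; subst hi; rfl
  | lt a b iha ihb =>
    intro t i hi
    simp only [ce, List.mem_append] at hi
    rcases hi with hi | hi | hi
    · exact iha t i hi
    · exact ihb _ i hi
    · simp at hi; subst hi; rfl
  | ite c a b ihc iha ihb =>
    intro t i hi
    simp only [ce, List.mem_append] at hi
    rcases hi with hi | hi | hi | hi
    · exact ihc t i hi
    · exact iha _ i hi
    · exact ihb _ i hi
    · simp at hi; rcases hi with rfl | rfl | rfl | rfl | rfl <;> rfl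

/-- fixed registers -/
structure RegInv (n K : ℕ) (ρ : ℕ → ℕ) : Prop where
  r0 : ρ 0 = n
  r1 : ρ 1 = n + 1
  r2 : ρ 2 = n * n + 1
  r5 : ρ 5 = K
  r6 : ρ 6 = cap n
  r7 : ρ 7 = 1
  r9 : ρ 9 = 0

theorem RegInv.of_agree {n K : ℕ} {ρ ρ' : ℕ → ℕ} (h : RegInv n K ρ)
    (hr : ∀ r < 10, ρ' r = ρ r) : RegInv n K ρ' := by
  obtain ⟨h0, h1, h2, h5, h6, h7, h9⟩ := h
  exact ⟨by rw [hr 0 (by norm_num), h0], by rw [hr 1 (by norm_num), h1],
    by rw [hr 2 (by norm_num), h2], by rw [hr 5 (by norm_num), h5],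
    by rw [hr 6 (by norm_num), h6], by rw [hr 7 (by norm_num), h7],
    by rw [hr 9 (by norm_num), h9]⟩

/-- memory layout -/
structure MemInv (n : ℕ) (inp : ℕ → ℕ) (K X : ℕ) (Tc : ℕ → ℕ → ℕ) (m : ℕ → ℕ) : Prop where
  inp_eq : ∀ e, e < n * n → m (e + 1) = inp e
  tab_eq : ∀ j, j < K → ∀ x, m (x * K + (n * n + 1) + j) = Tc j x
  le : ∀ y, m y ≤ X

/-- numbers bounding everything -/
structure Big (n K X : ℕ) : Prop where
  two : 2 ≤ X
  n1 : n + 1 ≤ X
  base : n * n + 1 ≤ X
  kk : K ≤ X
  cp : cap n ≤ X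

theorem addr_bound {n K X x j w : ℕ} (hX : Big n K X) (hj : j < K) (hw : 1 ≤ w)
    (hx : x ≤ X ^ w) : x * K ≤ X ^ (w + 2) ∧ x * K + (n * n + 1) ≤ X ^ (w + 2) ∧
      x * K + (n * n + 1) + j ≤ X ^ (w + 2) := by
  have h1 := hX.two
  have h2 := hX.base
  have h3 := hX.kk
  have h4 : x * K ≤ X ^ w * X := Nat.mul_le_mul hx h3
  have h5 : X ≤ X ^ w := by
    calc X = X ^ 1 := (pow_one X).symm
      _ ≤ X ^ w := Nat.pow_le_pow_right (by omega) hw
  have h6 : X ^ (w + 2) = X ^ w * X * X := by ring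
  have h7 : 2 * (X ^ w * X) ≤ X ^ w * X * X := by
    have : 2 * (X ^ w * X) ≤ X * (X ^ w * X) := Nat.mul_le_mul_right _ h1
    linarith [Nat.mul_comm X (X ^ w * X)]
  have h8 : 2 * X ≤ X ^ w * X := by
    have : 2 ≤ X ^ w := h1.trans h5
    exact Nat.mul_le_mul_right _ this
  have h9 : x * K + (n * n + 1) + j ≤ X ^ (w + 2) := by
    rw [h6]
    omega
  exact ⟨by omega, by omega, h9⟩

theorem le_pow_of_le {X v w : ℕ} (h2 : 2 ≤ X) (hw : 1 ≤ w) (h : v ≤ X) : v ≤ X ^ w :=
  h.trans (calc X = X ^ 1 := (pow_one X).symm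
      _ ≤ X ^ w := Nat.pow_le_pow_right (by omega) hw)

theorem pow_mono' {X v w : ℕ} (h2 : 2 ≤ X) (h : v ≤ w) : X ^ v ≤ X ^ w :=
  Nat.pow_le_pow_right (by omega) h

theorem self_le_pow {X c : ℕ} (h2 : 2 ≤ X) : c ≤ X ^ (c + 1) := by
  have h1 : c < 2 ^ c := Nat.lt_two_pow_self
  have h3 : 2 ^ c ≤ X ^ c := Nat.pow_le_pow_left h2 c
  have h4 : X ^ c ≤ X ^ (c + 1) := pow_mono' h2 (by omega)
  omega

/-- two register code at the end of a binary operation -/
theorem bin_spec {G : ℕ} {m ρ : ℕ → ℕ} {L M : List Instr} {t x y v : ℕ} {i : Instr}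
    (hdst : dst i = t + 10)
    (h1 : evs m L ρ (t + 10) = x) (h1' : ∀ r < t + 10, evs m L ρ r = ρ r) (h1b : Bd m G L ρ)
    (h2 : evs m M (evs m L ρ) (t + 1 + 10) = y)
    (h2' : ∀ r < t + 1 + 10, evs m M (evs m L ρ) r = evs m L ρ r)
    (h2b : Bd m G M (evs m L ρ))
    (hval : ∀ σ : ℕ → ℕ, σ (t + 10) = x → σ (t + 11) = y → val m σ i = v) (hv : v ≤ G) :
    evs m (L ++ (M ++ [i])) ρ (t + 10) = v ∧
      (∀ r < t + 10, evs m (L ++ (M ++ [i])) ρ r = ρ r) ∧ Bd m G (L ++ (M ++ [i])) ρ := by
  have h3 : val m (evs m M (evs m L ρ)) i = v := by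
    apply hval
    · rw [h2' _ (by omega), h1]
    · exact h2
  refine ⟨?_, ?_, ?_⟩
  · rw [evs_append, evs_append]
    simp only [evs, hdst, h3, Function.update_self]
  · intro r hr
    rw [evs_append, evs_append]
    simp only [evs, hdst]
    rw [Function.update_of_ne (by omega), h2' r (by omega), h1' r hr]
  · rw [Bd_append, Bd_append]
    refine ⟨h1b, h2b, ?_, trivial⟩
    rw [h3]; exact hv

/-- reading a table -/
theorem tab_spec {n : ℕ} {inp : ℕ → ℕ} {K X G : ℕ} {Tc : ℕ → ℕ → ℕ} {m ρ : ℕ → ℕ}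
    (hX : Big n K X) (hm : MemInv n inp K X Tc m) (hρ : RegInv n K ρ)
    {L : List Instr} {t x j w : ℕ} (hj : j < K) (hw : 1 ≤ w) (hx : x ≤ X ^ w)
    (hG : X ^ (w + 3) ≤ G)
    (h1 : evs m L ρ (t + 10) = x) (h1' : ∀ r < t + 10, evs m L ρ r = ρ r)
    (h1b : Bd m G L ρ) :
    Tc j x ≤ X ^ (w + 3) ∧
    evs m (L ++ [.mul (t + 10) (t + 10) 5, .add (t + 10) (t + 10) 2,
      .const (t + 11) j, .add (t + 10) (t + 10) (t + 11), .load (t + 10) (t + 10)]) ρ (t + 10)
      = Tc j x ∧
    (∀ r < t + 10, evs m (L ++ [.mul (t + 10) (t + 10) 5, .add (t + 10) (t + 10) 2,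
      .const (t + 11) j, .add (t + 10) (t + 10) (t + 11), .load (t + 10) (t + 10)]) ρ r = ρ r) ∧
    Bd m G (L ++ [.mul (t + 10) (t + 10) 5, .add (t + 10) (t + 10) 2,
      .const (t + 11) j, .add (t + 10) (t + 10) (t + 11), .load (t + 10) (t + 10)]) ρ := by
  obtain ⟨b1, b2, b3⟩ := addr_bound hX hj hw hx
  have hmono : X ^ (w + 2) ≤ G := (pow_mono' hX.two (by omega)).trans hG
  have hTc : Tc j x ≤ X := by rw [← hm.tab_eq j hj x]; exact hm.le _
  have hXG : X ≤ G := (le_pow_of_le hX.two (by omega) le_rfl).trans hG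
  have e5 : evs m L ρ 5 = K := by rw [h1' 5 (by omega), hρ.r5]
  have e2 : evs m L ρ 2 = n * n + 1 := by rw [h1' 2 (by omega), hρ.r2]
  have hjX : j ≤ X := hj.le.trans hX.kk
  refine ⟨le_pow_of_le hX.two (by omega) hTc, ?_, ?_, ?_⟩
  · rw [evs_append]
    simp [evs, dst, val, Function.update, h1, e5, e2]
    exact hm.tab_eq j hj x
  · intro r hr
    rw [evs_append]
    have hr1 : r ≠ t + 10 := by omega
    have hr2 : r ≠ t + 11 := by omega
    simp [evs, dst, val, Function.update, hr1, hr2, h1' r hr]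
  · rw [Bd_append]
    refine ⟨h1b, ?_⟩
    simp [Bd, dst, val, Function.update, h1, e5, e2]
    refine ⟨by omega, by omega, by omega, by omega, ?_⟩
    rw [hm.tab_eq j hj x]
    omega

theorem ce_spec {n : ℕ} {inp : ℕ → ℕ} {K X G k s : ℕ} {T Tc : ℕ → ℕ → ℕ} {C : ℕ → ℕ}
    {m : ℕ → ℕ} (hX : Big n K X) (hinp : ∀ x, inp x ≤ 1) (hs : s ≤ X) (hkK : k < K)
    (hTc : ∀ j < k, Tc j = T j) (hTk : Tc k = C) (hm : MemInv n inp K X Tc m) (e : Expr) :
    e.wf k = true → ∀ (t : ℕ) (ρ : ℕ → ℕ), RegInv n K ρ → ρ 3 = s → X ^ size e ≤ G →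
      e.eval n inp T C s ≤ X ^ size e ∧
      evs m (ce k e t) ρ (t + 10) = e.eval n inp T C s ∧
      (∀ r < t + 10, evs m (ce k e t) ρ r = ρ r) ∧ Bd m G (ce k e t) ρ := by
  have h2 := hX.two
  induction e with
  | lit c =>
    intro _ t ρ hρ h3 hG
    have hc : c ≤ X ^ (c + 1) := self_le_pow h2
    refine ⟨hc, ?_, ?_, ?_⟩
    · simp [ce, evs, dst, val, Expr.eval]
    · intro r hr
      simp [ce, evs, dst, val, Function.update_of_ne (show r ≠ t + 10 by omega)]
    · simp only [ce, Bd, val, and_true]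
      exact hc.trans hG
  | sz =>
    intro _ t ρ hρ h3 hG
    have hc : n ≤ X ^ 1 := by rw [pow_one]; have := hX.n1; omega
    refine ⟨hc, ?_, ?_, ?_⟩
    · simp [ce, evs, dst, val, Expr.eval, hρ.r0]
    · intro r hr
      simp [ce, evs, dst, val, Function.update_of_ne (show r ≠ t + 10 by omega)]
    · simp only [ce, Bd, val, and_true, hρ.r0]
      exact hc.trans hG
  | ctr =>
    intro _ t ρ hρ h3 hG
    have hc : s ≤ X ^ 1 := by rw [pow_one]; exact hs
    refine ⟨hc, ?_, ?_, ?_⟩
    · simp [ce, evs, dst, val, Expr.eval, h3]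
    · intro r hr
      simp [ce, evs, dst, val, Function.update_of_ne (show r ≠ t + 10 by omega)]
    · simp only [ce, Bd, val, and_true, h3]
      exact hc.trans hG
  | inp e ih =>
    intro hwf t ρ hρ h3 hG
    simp only [size] at hG ⊢
    have hG' : X ^ size e ≤ G := (pow_mono' h2 (by omega)).trans hG
    obtain ⟨i1, i2, i3, i4⟩ := ih hwf t ρ hρ h3 hG'
    set x := e.eval n inp T C s with hx
    have e0 : evs m (ce k e t) ρ 0 = n := by rw [i3 0 (by omega), hρ.r0]
    have e7 : evs m (ce k e t) ρ 7 = 1 := by rw [i3 7 (by omega), hρ.r7]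
    have hv : (if x < n * n then inp x else 0) ≤ 1 := by
      split_ifs
      · exact hinp x
      · omega
    have hXG : X ≤ G := (le_pow_of_le hX.two (by omega) le_rfl).trans hG
    have hX1 : X ^ size e + 1 ≤ X ^ (size e + 1) := by
      have : X ^ (size e + 1) = X ^ size e * X := pow_succ _ _
      have h5 : 1 ≤ X ^ size e := Nat.one_le_pow _ _ (by omega)
      nlinarith
    have hmx := hm.le (x + 1)
    have hb := hX.base
    refine ⟨?_, ?_, ?_, ?_⟩
    · show (if x < n * n then inp x else 0) ≤ _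
      exact le_pow_of_le h2 (by omega) (by omega)
    · show _ = (if x < n * n then inp x else 0)
      simp only [ce]
      rw [evs_append]
      simp [evs, dst, val, Function.update, i2, e0, e7]
      split_ifs with hlt
      · simp [hm.inp_eq x hlt]
      · simp
    · intro r hr
      have hr1 : r ≠ t + 10 := by omega
      have hr2 : r ≠ t + 11 := by omega
      simp only [ce]
      rw [evs_append]
      simp [evs, dst, val, Function.update, hr1, hr2, i3 r hr]
    · simp only [ce]
      rw [Bd_append]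
      refine ⟨i4, ?_⟩
      simp [Bd, dst, val, Function.update, i2, e0, e7]
      refine ⟨by omega, ?_, by omega, by omega, ?_⟩
      · split_ifs <;> omega
      · split_ifs
        · omega
        · omega
  | tab j e ih =>
    intro hwf t ρ hρ h3 hG
    simp only [Expr.wf, Bool.and_eq_true, decide_eq_true_eq] at hwf
    simp only [size] at hG ⊢
    have hG' : X ^ size e ≤ G := (pow_mono' h2 (by omega)).trans hG
    obtain ⟨i1, i2, i3, i4⟩ := ih hwf.2 t ρ hρ h3 hG'
    have := tab_spec hX hm hρ (j := j) (by omega) (size_pos e) i1 hG i2 i3 i4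
    simp only [Expr.eval, ce]
    rw [hTc j hwf.1] at this
    exact this
  | cur e ih =>
    intro hwf t ρ hρ h3 hG
    simp only [size] at hG ⊢
    have hG' : X ^ size e ≤ G := (pow_mono' h2 (by omega)).trans hG
    obtain ⟨i1, i2, i3, i4⟩ := ih hwf t ρ hρ h3 hG'
    have := tab_spec hX hm hρ (j := k) hkK (size_pos e) i1 hG i2 i3 i4
    simp only [Expr.eval, ce]
    rw [hTk] at this
    exact this
  | add a b iha ihb =>
    intro hwf t ρ hρ h3 hG
    simp only [Expr.wf, Bool.and_eq_true] at hwf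
    simp only [size] at hG ⊢
    have hpa := size_pos a
    have hpb := size_pos b
    obtain ⟨a1, a2, a3, a4⟩ := iha hwf.1 t ρ hρ h3 ((pow_mono' h2 (by omega)).trans hG)
    have hρ' := hρ.of_agree (ρ' := evs m (ce k a t) ρ) (fun r hr => a3 r (by omega))
    obtain ⟨b1, b2, b3, b4⟩ := ihb hwf.2 (t + 1) _ hρ' (by rw [a3 3 (by omega), h3])
      ((pow_mono' h2 (by omega)).trans hG)
    have hv : (Expr.add a b).eval n inp T C s ≤ X ^ (size a + size b) := by
      simp only [Expr.eval]
      rw [pow_add]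
      have h5 : X ≤ X ^ size a := le_pow_of_le h2 hpa le_rfl
      have h6 : X ≤ X ^ size b := le_pow_of_le h2 hpb le_rfl
      nlinarith [Nat.mul_le_mul (h2.trans h5) (h2.trans h6)]
    refine ⟨hv, ?_⟩
    refine bin_spec rfl a2 a3 a4 b2 b3 b4 ?_ (hv.trans hG)
    intro σ h7 h8
    simp only [val, Expr.eval, h7, h8]
  | sub a b iha ihb =>
    intro hwf t ρ hρ h3 hG
    simp only [Expr.wf, Bool.and_eq_true] at hwf
    simp only [size] at hG ⊢
    have hpa := size_pos a
    have hpb := size_pos b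
    obtain ⟨a1, a2, a3, a4⟩ := iha hwf.1 t ρ hρ h3 ((pow_mono' h2 (by omega)).trans hG)
    have hρ' := hρ.of_agree (ρ' := evs m (ce k a t) ρ) (fun r hr => a3 r (by omega))
    obtain ⟨b1, b2, b3, b4⟩ := ihb hwf.2 (t + 1) _ hρ' (by rw [a3 3 (by omega), h3])
      ((pow_mono' h2 (by omega)).trans hG)
    have hv : (Expr.sub a b).eval n inp T C s ≤ X ^ (size a + size b) := by
      simp only [Expr.eval]
      exact ((Nat.sub_le _ _).trans a1).trans (pow_mono' h2 (by omega))
    refine ⟨hv, ?_⟩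
    refine bin_spec rfl a2 a3 a4 b2 b3 b4 ?_ (hv.trans hG)
    intro σ h7 h8
    simp only [val, Expr.eval, h7, h8]
  | mul a b iha ihb =>
    intro hwf t ρ hρ h3 hG
    simp only [Expr.wf, Bool.and_eq_true] at hwf
    simp only [size] at hG ⊢
    have hpa := size_pos a
    have hpb := size_pos b
    obtain ⟨a1, a2, a3, a4⟩ := iha hwf.1 t ρ hρ h3 ((pow_mono' h2 (by omega)).trans hG)
    have hρ' := hρ.of_agree (ρ' := evs m (ce k a t) ρ) (fun r hr => a3 r (by omega))
    obtain ⟨b1, b2, b3, b4⟩ := ihb hwf.2 (t + 1) _ hρ' (by rw [a3 3 (by omega), h3])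
      ((pow_mono' h2 (by omega)).trans hG)
    have hv : (Expr.mul a b).eval n inp T C s ≤ X ^ (size a + size b) := by
      simp only [Expr.eval]
      rw [pow_add]
      exact Nat.mul_le_mul a1 b1
    refine ⟨hv, ?_⟩
    refine bin_spec rfl a2 a3 a4 b2 b3 b4 ?_ (hv.trans hG)
    intro σ h7 h8
    simp only [val, Expr.eval, h7, h8]
  | div a b iha ihb =>
    intro hwf t ρ hρ h3 hG
    simp only [Expr.wf, Bool.and_eq_true] at hwf
    simp only [size] at hG ⊢
    have hpa := size_pos a
    have hpb := size_pos b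
    obtain ⟨a1, a2, a3, a4⟩ := iha hwf.1 t ρ hρ h3 ((pow_mono' h2 (by omega)).trans hG)
    have hρ' := hρ.of_agree (ρ' := evs m (ce k a t) ρ) (fun r hr => a3 r (by omega))
    obtain ⟨b1, b2, b3, b4⟩ := ihb hwf.2 (t + 1) _ hρ' (by rw [a3 3 (by omega), h3])
      ((pow_mono' h2 (by omega)).trans hG)
    have hv : (Expr.div a b).eval n inp T C s ≤ X ^ (size a + size b) := by
      simp only [Expr.eval]
      exact ((Nat.div_le_self _ _).trans a1).trans (pow_mono' h2 (by omega))
    refine ⟨hv, ?_⟩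
    refine bin_spec rfl a2 a3 a4 b2 b3 b4 ?_ (hv.trans hG)
    intro σ h7 h8
    simp only [val, Expr.eval, h7, h8]
  | mod a b iha ihb =>
    intro hwf t ρ hρ h3 hG
    simp only [Expr.wf, Bool.and_eq_true] at hwf
    simp only [size] at hG ⊢
    have hpa := size_pos a
    have hpb := size_pos b
    obtain ⟨a1, a2, a3, a4⟩ := iha hwf.1 t ρ hρ h3 ((pow_mono' h2 (by omega)).trans hG)
    have hρ' := hρ.of_agree (ρ' := evs m (ce k a t) ρ) (fun r hr => a3 r (by omega))
    obtain ⟨b1, b2, b3, b4⟩ := ihb hwf.2 (t + 1) _ hρ' (by rw [a3 3 (by omega), h3])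
      ((pow_mono' h2 (by omega)).trans hG)
    have hv : (Expr.mod a b).eval n inp T C s ≤ X ^ (size a + size b) := by
      simp only [Expr.eval]
      exact ((Nat.mod_le _ _).trans a1).trans (pow_mono' h2 (by omega))
    refine ⟨hv, ?_⟩
    refine bin_spec rfl a2 a3 a4 b2 b3 b4 ?_ (hv.trans hG)
    intro σ h7 h8
    simp only [val, Expr.eval, h7, h8]
  | lt a b iha ihb =>
    intro hwf t ρ hρ h3 hG
    simp only [Expr.wf, Bool.and_eq_true] at hwf
    simp only [size] at hG ⊢
    have hpa := size_pos a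
    have hpb := size_pos b
    obtain ⟨a1, a2, a3, a4⟩ := iha hwf.1 t ρ hρ h3 ((pow_mono' h2 (by omega)).trans hG)
    have hρ' := hρ.of_agree (ρ' := evs m (ce k a t) ρ) (fun r hr => a3 r (by omega))
    obtain ⟨b1, b2, b3, b4⟩ := ihb hwf.2 (t + 1) _ hρ' (by rw [a3 3 (by omega), h3])
      ((pow_mono' h2 (by omega)).trans hG)
    have hv : (Expr.lt a b).eval n inp T C s ≤ X ^ (size a + size b) := by
      simp only [Expr.eval]
      refine le_pow_of_le h2 (by omega) ?_
      split_ifs <;> omega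
    refine ⟨hv, ?_⟩
    refine bin_spec rfl a2 a3 a4 b2 b3 b4 ?_ (hv.trans hG)
    intro σ h7 h8
    simp only [val, Expr.eval, h7, h8]
  | ite c a b ihc iha ihb =>
    intro hwf t ρ hρ h3 hG
    simp only [Expr.wf, Bool.and_eq_true] at hwf
    simp only [size] at hG ⊢
    have hpc := size_pos c
    have hpa := size_pos a
    have hpb := size_pos b
    obtain ⟨c1, c2, c3, c4⟩ := ihc hwf.1.1 t ρ hρ h3 ((pow_mono' h2 (by omega)).trans hG)
    have hρ1 := hρ.of_agree (ρ' := evs m (ce k c t) ρ) (fun r hr => c3 r (by omega))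
    have h31 : evs m (ce k c t) ρ 3 = s := by rw [c3 3 (by omega), h3]
    obtain ⟨a1, a2, a3, a4⟩ := iha hwf.1.2 (t + 1) _ hρ1 h31
      ((pow_mono' h2 (by omega)).trans hG)
    have hρ2 := hρ1.of_agree (ρ' := evs m (ce k a (t + 1)) (evs m (ce k c t) ρ))
      (fun r hr => a3 r (by omega))
    have h32 : evs m (ce k a (t + 1)) (evs m (ce k c t) ρ) 3 = s := by
      rw [a3 3 (by omega), h31]
    obtain ⟨b1, b2, b3, b4⟩ := ihb hwf.2 (t + 2) _ hρ2 h32
      ((pow_mono' h2 (by omega)).trans hG)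
    have ha : a.eval n inp T C s ≤ X ^ (size c + size a + size b) :=
      a1.trans (pow_mono' h2 (by omega))
    have hb : b.eval n inp T C s ≤ X ^ (size c + size a + size b) :=
      b1.trans (pow_mono' h2 (by omega))
    have hXG : X ≤ G := (le_pow_of_le hX.two (by omega) le_rfl).trans hG
    set σ := evs m (ce k b (t + 2)) (evs m (ce k a (t + 1)) (evs m (ce k c t) ρ)) with hσ
    have s10 : σ (t + 10) = c.eval n inp T C s := by
      rw [b3 _ (by omega), a3 _ (by omega), c2]
    have s11 : σ (t + 11) = a.eval n inp T C s := by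
      rw [b3 _ (by omega)]
      exact a2
    have s12 : σ (t + 12) = b.eval n inp T C s := b2
    have s7 : σ 7 = 1 := by rw [b3 _ (by omega), a3 _ (by omega), c3 _ (by omega), hρ.r7]
    have s9 : σ 9 = 0 := by rw [b3 _ (by omega), a3 _ (by omega), c3 _ (by omega), hρ.r9]
    have hfold : evs m (ce k (.ite c a b) t) ρ = evs m
      [.less (t + 10) 9 (t + 10), .mul (t + 11) (t + 11) (t + 10), .sub (t + 10) 7 (t + 10),
        .mul (t + 12) (t + 12) (t + 10), .add (t + 10) (t + 11) (t + 12)] σ := by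
      simp only [ce]
      rw [evs_append, evs_append, evs_append]
    refine ⟨?_, ?_, ?_, ?_⟩
    · simp only [Expr.eval]
      split_ifs
      · exact hb
      · exact ha
    · rw [hfold]
      simp [evs, dst, val, Function.update, s10, s11, s12, s7, s9, Expr.eval]
      by_cases hc : c.eval n inp T C s = 0
      · simp [hc]
      · simp [hc, Nat.pos_of_ne_zero hc]
    · intro r hr
      rw [hfold]
      have hr1 : r ≠ t + 10 := by omega
      have hr2 : r ≠ t + 11 := by omega
      have hr3 : r ≠ t + 12 := by omega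
      simp [evs, dst, val, Function.update, hr1, hr2, hr3]
      rw [b3 _ (by omega), a3 _ (by omega), c3 _ (by omega)]
    · simp only [ce]
      rw [Bd_append, Bd_append, Bd_append]
      refine ⟨c4, a4, b4, ?_⟩
      rw [← hσ]
      simp [Bd, dst, val, Function.update, s10, s11, s12, s7, s9]
      by_cases hc : c.eval n inp T C s = 0
      · simp [hc]; omega
      · simp [hc, Nat.pos_of_ne_zero hc]; omega

end Compile

end Pool.Agent.BD
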