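import Pool.Agent.BD.Defs

/-!
Broadcast domination on chordal graphs: the broadcast domination number is the minimum cost of a
cover by balls.
-/

namespace Pool.Agent.BD

open Finset

theorem one_le_ecc {W : Type*} [Fintype W] (H : SimpleGraph W) (hH : H.Connected)
    (hn : 2 ≤ Fintype.card W) (v : W) : 1 ≤ ecc H v := by
  have : Nontrivial W := Fintype.one_lt_card_iff_nontrivial.1 hn
  obtain ⟨w, hw⟩ := exists_ne v
  have h1 : 0 < H.dist v w := hH.pos_dist_of_ne hw.symm
  exact le_trans h1 (Finset.le_sup (f := fun u => H.dist v u) (mem_univ w))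

/-- Every cover gives a dominating broadcast of at most the same cost. -/
theorem exists_broadcast {W : Type*} [Fintype W] [DecidableEq W] (H : SimpleGraph W)
    (hH : H.Connected) (hn : 2 ≤ Fintype.card W) (C : Finset (W × ℕ)) (hC : Cover H C) :
    ∃ f : W → ℕ, IsBroadcast H f ∧ Dominating H f ∧ ∑ v, f v ≤ cost C := by
  refine ⟨fun v => min (∑ x ∈ C.filter (fun x => x.1 = v), x.2) (ecc H v),
    fun v => min_le_right _ _, fun u => ?_, ?_⟩
  · obtain ⟨x, hx, hd⟩ := hC.2 u
    have h1 : x.2 ≤ ∑ y ∈ C.filter (fun y => y.1 = x.1), y.2 :=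
      Finset.single_le_sum (f := fun y : W × ℕ => y.2) (fun _ _ => Nat.zero_le _)
        (mem_filter.2 ⟨hx, rfl⟩)
    have h2 : H.dist x.1 u ≤ ecc H x.1 :=
      Finset.le_sup (f := fun w => H.dist x.1 w) (mem_univ u)
    refine ⟨x.1, le_min ((hC.1 x hx).trans h1) (one_le_ecc H hH hn x.1), ?_⟩
    rw [H.dist_comm]
    exact le_min (hd.trans h1) h2
  · have h3 : ∑ v, ∑ x ∈ C.filter (fun x => x.1 = v), x.2 = cost C :=
      Finset.sum_fiberwise C (fun x => x.1) (fun x => x.2)
    rw [← h3]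
    exact Finset.sum_le_sum fun v _ => min_le_left _ _

/-- Every dominating broadcast gives a cover of the same cost. -/
theorem exists_cover {W : Type*} [Fintype W] [DecidableEq W] (H : SimpleGraph W)
    (f : W → ℕ) (hf : Dominating H f) : ∃ C : Finset (W × ℕ), Cover H C ∧ cost C = ∑ v, f v := by
  refine ⟨(univ.filter (fun v => 1 ≤ f v)).image (fun v => (v, f v)), ⟨?_, ?_⟩, ?_⟩
  · intro x hx
    obtain ⟨v, hv, rfl⟩ := mem_image.1 hx
    exact (mem_filter.1 hv).2
  · intro u
    obtain ⟨v, h1, h2⟩ := hf u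
    refine ⟨(v, f v), mem_image.2 ⟨v, mem_filter.2 ⟨mem_univ v, h1⟩, rfl⟩, ?_⟩
    rw [H.dist_comm]
    exact h2
  · unfold cost
    rw [Finset.sum_image (by
      intro v _ w _ h
      exact (Prod.mk.inj h).1)]
    refine Finset.sum_subset (filter_subset _ _) fun v _ hv => ?_
    have : ¬ 1 ≤ f v := fun h => hv (mem_filter.2 ⟨mem_univ v, h⟩)
    change f v = 0
    omega

/-- the broadcast domination number is the minimum cost of a cover by balls -/
theorem gamma_eq {W : Type*} [Fintype W] [DecidableEq W] (H : SimpleGraph W)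
    (hH : H.Connected) (hn : 2 ≤ Fintype.card W) (g : ℕ)
    (h1 : ∃ C : Finset (W × ℕ), Cover H C ∧ cost C ≤ g)
    (h2 : ∀ C : Finset (W × ℕ), Cover H C → g ≤ cost C) : gammaB H = g := by
  obtain ⟨C, hC, hCg⟩ := h1
  obtain ⟨f, hf1, hf2, hf3⟩ := exists_broadcast H hH hn C hC
  have hmem : (∑ v, f v) ∈ {c | ∃ f : W → ℕ, IsBroadcast H f ∧ Dominating H f ∧ ∑ v, f v = c} :=
    ⟨f, hf1, hf2, rfl⟩
  refine le_antisymm ((Nat.sInf_le hmem).trans (hf3.trans hCg)) ?_
  obtain ⟨f', -, hf2', hf3'⟩ := Nat.sInf_mem ⟨_, hmem⟩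
  obtain ⟨C', hC', hcost⟩ := exists_cover H f' hf2'
  have := h2 C' hC'
  rw [hcost, hf3'] at this
  exact this

end Pool.Agent.BD
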